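import Pool.Agent.H12.KTH.Stmts2
import Pool.Agent.H45.KTH.KPS
import Pool.Agent.H99.KTH.CGP
import Pool.Agent.H70.KTH.UPT

/-!
# KTH, row KPK: ratios and coefficients, energies as fields
-/

set_option autoImplicit false

namespace Pool.KTH

open Finset Real
open Pool.Agent.H49.Ent Pool.Agent.H32.Dense

variable {d J : ℕ}

/-- The four ratios: a constant and the closenesses. -/
theorem kpk_kps (F : Cf d J) :
    Ex F.q (fun w => Real.log (1 + |F.k₁ w|)) ≤ Real.log 9 + F.eg F.t₁ F.t ∧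
    Ex F.q (fun w => Real.log (1 + |F.k₁ w|⁻¹)) ≤ Real.log 9 + F.eg F.t₁ F.s ∧
    Ex F.q (fun w => Real.log (1 + |F.k₂ w|)) ≤ Real.log 9 + F.eg F.ta F.s ∧
    Ex F.q (fun w => Real.log (1 + |F.k₂ w|⁻¹)) ≤ Real.log 9 + F.eg F.ta F.tr := by
  have key : ∀ (f : F.Ω → ℝ) (x y : F.Ω → ℤ),
      (∀ w, 0 < F.q w → f w ≤ Real.log 9 + gp J (x w) (y w)) →
      Ex F.q f ≤ Real.log 9 + F.eg x y := by
    intro f x y hf
    refine (Ex_mono F.hq hf).trans (le_of_eq ?_)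
    rw [Ex_add, Ex_const F.h1]
    rfl
  refine ⟨?_, ?_, ?_, ?_⟩
  · exact key _ _ _ fun w hw => kps_log J _ _ _ (F.ht₁ w hw) (F.hs w hw)
  · exact key _ _ _ fun w hw => by
      have e1 : |F.k₁ w|⁻¹ = |kap (F.s w) (F.t w) (F.t₁ w)| := by
        rw [kap_swap (F.t w) (F.s w) (F.t₁ w), abs_inv]
        rfl
      rw [e1]
      exact kps_log J _ _ _ (F.ht₁ w hw) (F.ht w hw)
  · exact key _ _ _ fun w hw => kps_log J _ _ _ (F.hta w hw) (F.htr w hw)
  · exact key _ _ _ fun w hw => by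
      have e1 : |F.k₂ w|⁻¹ = |kap (F.tr w) (F.s w) (F.ta w)| := by
        rw [kap_swap (F.s w) (F.tr w) (F.ta w), abs_inv]
        rfl
      rw [e1]
      exact kps_log J _ _ _ (F.hta w hw) (F.hs w hw)

/-- The coefficients: bounds by the ratios and one closeness. -/
theorem kpk_cgp (F : Cf d J) :
    F.big F.c ≤ 1 + Ex F.q (fun w => Real.log (1 + |F.k₁ w|)) ∧
    F.sml F.c ≤ 1 + F.eg F.r F.t + Ex F.q (fun w => Real.log (1 + |F.k₁ w|⁻¹)) ∧
    F.big F.c₂ ≤ 1 + Ex F.q (fun w => Real.log (1 + |F.k₂ w|)) +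
      (1 + Ex F.q (fun w => Real.log (1 + |F.k₁ w|))) ∧
    F.sml F.c₂ ≤ 1 + (1 + F.eg F.r F.t + Ex F.q (fun w => Real.log (1 + |F.k₁ w|⁻¹))) +
      Ex F.q (fun w => Real.log (1 + |F.k₂ w|⁻¹)) := by
  have hM : 0 < 2 ^ J := by positivity
  have b1 : ∀ w, 0 < F.q w → Real.log (1 + |(F.c w : ℝ)| / 2 ^ J) ≤
      1 + Real.log (1 + |F.k₁ w|) := by
    intro w hw
    have h := log_ct_le (M := 2 ^ J) hM (t := F.t w) (s := F.s w) (τ := F.t₁ w) (r := F.r w)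
      (F.ht w hw) (F.hr w hw)
    push_cast at h
    exact h
  have b2 : ∀ w, 0 < F.q w → Real.log (1 + 2 ^ J / max 1 |(F.c w : ℝ)|) ≤
      1 + gp J (F.r w) (F.t w) + Real.log (1 + |F.k₁ w|⁻¹) := by
    intro w hw
    have h := log_ct (M := 2 ^ J) hM (t := F.t w) (s := F.s w) (τ := F.t₁ w) (r := F.r w)
      (F.ht w hw) (F.hr w hw)
    push_cast at h
    rw [max_comm]
    have h' := ell_le_gp J (F.r w) (F.t w)
    refine h.trans ?_
    unfold Cf.k₁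
    linarith
  have b3 : ∀ w, 0 < F.q w → Real.log (1 + |(F.c₂ w : ℝ)| / 2 ^ J) ≤
      1 + Real.log (1 + |F.k₂ w|) + (1 + Real.log (1 + |F.k₁ w|)) := by
    intro w hw
    have h := log_floor_mul_le (M := 2 ^ J) hM (F.k₂ w) (F.c w)
    push_cast at h
    have h' := b1 w hw
    exact h.trans (by linarith)
  have b4 : ∀ w, 0 < F.q w → Real.log (1 + 2 ^ J / max 1 |(F.c₂ w : ℝ)|) ≤
      1 + (1 + gp J (F.r w) (F.t w) + Real.log (1 + |F.k₁ w|⁻¹)) +
        Real.log (1 + |F.k₂ w|⁻¹) := by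
    intro w hw
    have h := log_floor_mul (M := 2 ^ J) (kap_pos (F.s w) (F.tr w) (F.ta w)) (F.c w)
    push_cast at h
    rw [max_comm |(F.c w : ℝ)| 1] at h
    have h' := b2 w hw
    rw [max_comm]
    refine (le_trans (le_of_eq rfl) h).trans ?_
    unfold Cf.k₂
    linarith
  refine ⟨?_, ?_, ?_, ?_⟩
  · refine (Ex_mono F.hq b1).trans (le_of_eq ?_)
    rw [Ex_add, Ex_const F.h1]
  · refine (Ex_mono F.hq b2).trans (le_of_eq ?_)
    rw [Ex_add, Ex_add, Ex_const F.h1]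
    rfl
  · refine (Ex_mono F.hq b3).trans (le_of_eq ?_)
    rw [Ex_add, Ex_add, Ex_add, Ex_const F.h1]
  · refine (Ex_mono F.hq b4).trans (le_of_eq ?_)
    rw [Ex_add, Ex_add, Ex_add, Ex_add, Ex_const F.h1]
    rfl

theorem kpk_log9 : Real.log 9 ≤ 3 := by
  have h : (9 : ℝ) ≤ 2 ^ (4 : ℕ) := by norm_num
  have h1 : Real.log 9 ≤ Real.log (2 ^ (4 : ℕ)) := Real.log_le_log (by norm_num) h
  rw [Real.log_pow] at h1
  have h2 := Real.log_two_lt_d9
  push_cast at h1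
  linarith

theorem kpk : KPKStmt := by
  intro d
  refine ⟨⟨16, by norm_num, ?_⟩, ⟨24, by norm_num, ?_⟩, ⟨16, by norm_num, ?_⟩,
    ⟨24, by norm_num, ?_⟩, ⟨16, by norm_num, ?_⟩, ⟨24, by norm_num, ?_⟩⟩ <;>
  · intro J F L sb K G hF
    obtain ⟨a1, a2, a3, a4, a5, a6, a7, a8, a9, a10⟩ := hF.eg
    obtain ⟨b1, b2, b3, b4⟩ := kpk_kps F
    obtain ⟨c1, c2, c3, c4⟩ := kpk_cgp F
    have hG := hF.G0
    have e1 : G + 1 ≤ er J G := by
      have h2 : 0 ≤ Real.log ((J : ℝ) + 2) := Real.log_nonneg (by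
        have : (0 : ℝ) ≤ J := Nat.cast_nonneg J
        linarith)
      unfold er
      linarith
    have l9 := kpk_log9
    have t1 := Upt.tail_var F F.c
    have t2 := Upt.tail_var F F.c₂
    have t3 : CH F.q F.TO F.Z ≤ _ := Upt.tail_time F F.s F.c F.hs
    have t4 : CH F.q F.TY F.Z ≤ _ := Upt.tail_time F F.tr F.c₂ F.htr
    simp only
    linarith

end Pool.KTH
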